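import Pool.Agent.H54.UM.G9

/-!
# MP_23da35_gt: the degree of a universal base with finite fundamental group

Full (negative) answer: a closed connected orientable `m`-manifold with finite fundamental group that is
a universal `k`-base satisfies `k ≥ m * |π₁|`.
-/

open Pool.H54.UB

namespace Pool.Agent.Results.MP_23da35_gt.UniversalBaseDegree

/-- If the closed connected orientable PL `m`-manifold `M` has finite fundamental group and is a
universal `k`-base, `k ≥ 2`, then `m * |π₁(M)| ≤ k`. -/
theorem result {m n k : ℕ} {M : Set (Fin n → ℝ)} (hM : IsClosedPLManifold m M)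
    (hc : IsConnected M) (ho : IsOrientable m M) (x : M) [Finite (FundamentalGroup M x)]
    (hk : 2 ≤ k) (hu : IsUniversalBase m k M) :
    m * Nat.card (FundamentalGroup M x) ≤ k :=
  universal_base_degree hM hc ho x hk hu

end Pool.Agent.Results.MP_23da35_gt.UniversalBaseDegree
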